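import Pool.Agent.helper99.ZR.Spec
import Pool.Agent.helper71.GA.UPP

/-!
# zr:UPP, the mass of a ball is bounded (families)
-/

set_option autoImplicit false

namespace Pool.Agent.ZR

open Finset
open Pool.Agent.helper32.Cant
open Pool.Agent.GA (nrm chi ch St sg flp Psi rc ph pot rpot far nc gf ncs gfs good mj om pick pat et kap mult)
open scoped ENNReal

noncomputable section

/-- UPP -/
theorem UPP : Pool.Agent.ZR.UPP_stmt := by
  intro n Ty _ c κ j ω p z₀ hWin hjκ hκn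
  classical
  -- notation
  obtain ⟨q, hq⟩ : ∃ q : ℕ, q = 3 ^ (n - j) := ⟨_, rfl⟩
  obtain ⟨Q, hQ⟩ : ∃ Q : ℕ, Q = 3 ^ (n - κ) := ⟨_, rfl⟩
  have hQq : Q ≤ q := by
    rw [hq, hQ]
    exact Nat.pow_le_pow_right (by norm_num) (by omega)
  have hQ1 : 1 ≤ Q := by
    rw [hQ]
    exact Nat.one_le_pow _ _ (by norm_num)
  have hq1 : 1 ≤ q := le_trans hQ1 hQq
  obtain ⟨T, hT⟩ : ∃ T : ℤ, T = ((p.1.val : ℕ) : ℤ) + (c.R z₀ : ℤ) * E p.2 := ⟨_, rfl⟩
  obtain ⟨t, ht⟩ : ∃ t : Fin (3 ^ n) → ZMod (3 ^ (2 * n)),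
    ∀ y, t y = ((3 ^ n * ((y : ℕ) : ℤ) + T : ℤ) : ZMod (3 ^ (2 * n))) := ⟨_, fun y => rfl⟩
  obtain ⟨s, hs⟩ : ∃ s : Fin (3 ^ n) → ℤ, ∀ y, s y = (t y).valMinAbs := ⟨_, fun y => rfl⟩
  obtain ⟨k, hk⟩ : ∃ k : Fin (3 ^ n) → ℤ, ∀ y, k y = s y / 3 ^ n := ⟨_, fun y => rfl⟩
  have h3n : (0 : ℤ) < 3 ^ n := by positivity
  have hM : ((3 ^ (2 * n) : ℕ) : ℤ) = 3 ^ n * 3 ^ n := by
    push_cast
    rw [← pow_add]
    congr 1
    ring
  -- the class of `s y`
  have hsd : ∀ y, ∃ m : ℤ, s y = 3 ^ n * ((y : ℕ) : ℤ) + T + 3 ^ n * 3 ^ n * m := by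
    intro y
    have h1 : (((s y - (3 ^ n * ((y : ℕ) : ℤ) + T)) : ℤ) : ZMod (3 ^ (2 * n))) = 0 := by
      rw [Int.cast_sub, hs, ZMod.coe_valMinAbs, ht, sub_self]
    rw [ZMod.intCast_zmod_eq_zero_iff_dvd] at h1
    obtain ⟨m, hm⟩ := h1
    rw [hM] at hm
    exact ⟨m, by linarith⟩
  have hmod : ∀ y, s y % 3 ^ n = T % 3 ^ n := by
    intro y
    obtain ⟨m, hm⟩ := hsd y
    have h1 : s y = T + 3 ^ n * (((y : ℕ) : ℤ) + 3 ^ n * m) := by
      rw [hm]
      ring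
    rw [h1, Int.add_mul_emod_self_left]
  have hkinj : Function.Injective k := by
    intro y y' hyy
    have h1 : s y = s y' := by
      have e1 := Int.mul_ediv_add_emod (s y) (3 ^ n)
      have e2 := Int.mul_ediv_add_emod (s y') (3 ^ n)
      rw [← e1, ← e2, hmod y, hmod y', ← hk, ← hk, hyy]
    obtain ⟨m, hm⟩ := hsd y
    obtain ⟨m', hm'⟩ := hsd y'
    have h2 : (3 : ℤ) ^ n * (((y : ℕ) : ℤ) - ((y' : ℕ) : ℤ)) = 3 ^ n * (3 ^ n * (m' - m)) := by
      rw [h1] at hm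
      rw [hm] at hm'
      linear_combination hm'
    have h3 : ((y : ℕ) : ℤ) - ((y' : ℕ) : ℤ) = 3 ^ n * (m' - m) :=
      mul_left_cancel₀ h3n.ne' h2
    have hy := y.isLt
    have hy' := y'.isLt
    have hyc : ((y : ℕ) : ℤ) < 3 ^ n := by exact_mod_cast hy
    have hyc' : ((y' : ℕ) : ℤ) < 3 ^ n := by exact_mod_cast hy'
    have h0 : (0 : ℤ) ≤ ((y : ℕ) : ℤ) := Int.natCast_nonneg _
    have h0' : (0 : ℤ) ≤ ((y' : ℕ) : ℤ) := Int.natCast_nonneg _
    have hmm : m' - m = 0 := by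
      have hlt : |(3 : ℤ) ^ n * (m' - m)| < 3 ^ n := by
        rw [← h3, abs_lt]
        constructor <;> linarith
      rw [abs_mul, abs_of_pos h3n] at hlt
      have h5 : |m' - m| < 1 := by
        by_contra hcon
        have h6 : 1 ≤ |m' - m| := not_lt.mp hcon
        nlinarith
      have h7 : |m' - m| = 0 := by
        have := abs_nonneg (m' - m)
        omega
      exact abs_eq_zero.mp h7
    rw [hmm, mul_zero] at h3
    apply Fin.ext
    have : ((y : ℕ) : ℤ) = ((y' : ℕ) : ℤ) := by linarith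
    exact_mod_cast this
  -- lower bound for `|s y|`
  have hslow : ∀ y, (3 : ℝ) ^ n * (((k y).natAbs : ℝ) - 1) ≤ nrm (t y) := by
    intro y
    have e1 := Int.mul_ediv_add_emod (s y) (3 ^ n)
    rw [← hk] at e1
    have e2 := Int.emod_nonneg (s y) h3n.ne'
    have e3 := Int.emod_lt_of_pos (s y) h3n
    have h1 : (3 : ℤ) ^ n * (|k y| - 1) ≤ |s y| := by
      rcases le_or_gt 0 (k y) with h | h
      · rw [abs_of_nonneg h]
        have h2 : s y ≤ |s y| := le_abs_self _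
        nlinarith
      · rw [abs_of_neg h]
        have h2 : -s y ≤ |s y| := neg_le_abs _
        nlinarith
    have h2 : nrm (t y) = ((|s y| : ℤ) : ℝ) := by
      unfold nrm
      rw [← hs, Int.cast_abs]
    rw [h2]
    have h3 : (((k y).natAbs : ℕ) : ℝ) = ((|k y| : ℤ) : ℝ) := by
      rw [Nat.cast_natAbs]
    rw [h3]
    exact_mod_cast h1
  -- the shift
  obtain ⟨cf, hcf⟩ : ∃ cf : Ty → Fin (3 ^ n), ∀ y, ((cf y : Fin (3 ^ n)) : ℕ) = c.ctr y :=
    ⟨fun y => ⟨c.ctr y, c.hc y⟩, fun y => rfl⟩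
  have hu : ∀ y : Ty, um c p y = t (cf y) + ((((c.R y : ℤ) - c.R z₀) * E p.2 : ℤ) : ZMod (3 ^ (2 * n))) := by
    intro y
    have h1 : p.1 = (((p.1.val : ℕ) : ℤ) : ZMod (3 ^ (2 * n))) := by
      rw [Int.cast_natCast, ZMod.natCast_val, ZMod.cast_id', id]
    show ((3 ^ n * (c.ctr y : ℤ) + (c.R y : ℤ) * E p.2 : ℤ) : ZMod (3 ^ (2 * n))) + p.1 = _
    rw [ht, ← Int.cast_add]
    conv_lhs => rw [h1]
    rw [← Int.cast_add]
    congr 1
    rw [hT, hcf y]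
    ring
  obtain ⟨X, hX⟩ : ∃ X : ℝ, X = Real.exp (-(1 / (2 * (Q : ℝ)))) := ⟨_, rfl⟩
  have hQr : (1 : ℝ) ≤ Q := by exact_mod_cast hQ1
  have hqr : (1 : ℝ) ≤ q := by exact_mod_cast hq1
  have hQqr : (Q : ℝ) ≤ q := by exact_mod_cast hQq
  have hX0 : 0 ≤ X := by
    rw [hX]
    exact (Real.exp_pos _).le
  have hX1 : X < 1 := by
    rw [hX]
    have h0 : 0 < 1 / (2 * (Q : ℝ)) := by positivity
    have h1 : Real.exp (-(1 / (2 * (Q : ℝ)))) < Real.exp 0 := Real.exp_lt_exp.mpr (by linarith)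
    rwa [Real.exp_zero] at h1
  have hX2 : 1 / (1 - X) ≤ 1 + 2 * (Q : ℝ) := by
    have h1 : 0 < 1 - X := by linarith
    rw [div_le_iff₀ h1]
    have h2 : 1 / (2 * (Q : ℝ)) + 1 ≤ Real.exp (1 / (2 * (Q : ℝ))) := Real.add_one_le_exp _
    have h3 : X * Real.exp (1 / (2 * (Q : ℝ))) = 1 := by
      rw [hX, ← Real.exp_add, neg_add_cancel, Real.exp_zero]
    have h4 : X * (1 / (2 * (Q : ℝ)) + 1) ≤ 1 := by
      have h5 := mul_le_mul_of_nonneg_left h2 hX0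
      rwa [h3] at h5
    have h5 : X * (1 / (2 * (Q : ℝ)) + 1) * (2 * (Q : ℝ)) ≤ 1 * (2 * (Q : ℝ)) :=
      mul_le_mul_of_nonneg_right h4 (by positivity)
    have h6 : X * (1 / (2 * (Q : ℝ)) + 1) * (2 * (Q : ℝ)) = X * (1 + 2 * Q) := by
      field_simp
    rw [h6] at h5
    linarith
  have hℓ : (3 : ℝ) ^ (2 * n - κ) = 3 ^ n * Q := by
    rw [hQ]
    push_cast
    rw [← pow_add]
    congr 1
    omega
  -- every term
  obtain ⟨Bd, hBd⟩ : ∃ Bd : Fin (3 ^ n) → ℝ, ∀ x, Bd x =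
      (if (k x).natAbs ≤ q then (1 : ℝ) else 0) + Real.exp 1 * X ^ (k x).natAbs := ⟨_, fun x => rfl⟩
  have hBd0 : ∀ x, 0 ≤ Bd x := by
    intro x
    rw [hBd]
    have hr0 : 0 ≤ Real.exp 1 * X ^ (k x).natAbs :=
      mul_nonneg (Real.exp_pos _).le (pow_nonneg hX0 _)
    have : (0 : ℝ) ≤ (if (k x).natAbs ≤ q then (1 : ℝ) else 0) := by
      by_cases h : (k x).natAbs ≤ q
      · rw [if_pos h]
        norm_num
      · rw [if_neg h]
    linarith
  have hterm : ∀ y : Ty, |(c.R y : ℤ) - c.R z₀| ≤ 3 ^ (n - j) →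
      chi ((3 : ℝ) ^ (2 * n - κ)) (um c p y) ≤ Bd (cf y) := by
    intro y hR
    rw [hBd]
    have hw1 : chi ((3 : ℝ) ^ (2 * n - κ)) (um c p y) ≤ 1 := by
      unfold chi
      apply Real.exp_le_one_iff.mpr
      have : 0 ≤ nrm (um c p y) / 3 ^ (2 * n - κ) := div_nonneg (abs_nonneg _) (by positivity)
      linarith
    have hr0 : 0 ≤ Real.exp 1 * X ^ (k (cf y)).natAbs :=
      mul_nonneg (Real.exp_pos _).le (pow_nonneg hX0 _)
    by_cases hkq : (k (cf y)).natAbs ≤ q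
    · rw [if_pos hkq]
      linarith
    · rw [if_neg hkq, zero_add]
      have hkq' : (q : ℝ) ≤ ((k (cf y)).natAbs : ℝ) := by
        exact_mod_cast (not_le.mp hkq).le
      have h1 := Pool.Agent.GA.UPP_nrm_add (t (cf y)) (((c.R y : ℤ) - c.R z₀) * E p.2)
      rw [← hu y] at h1
      have h2 : 2 * |((((c.R y : ℤ) - c.R z₀) * E p.2 : ℤ) : ℝ)| ≤ (q : ℝ) * 3 ^ n := by
        rw [← Int.cast_abs, abs_mul]
        have h3 := abs_E_le p.2
        have h4 : 2 * (|(c.R y : ℤ) - c.R z₀| * |E p.2|) ≤ (q : ℤ) * 3 ^ n := by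
          have h5 : (q : ℤ) = 3 ^ (n - j) := by
            rw [hq]
            push_cast
            rfl
          rw [h5]
          have h6 : 0 ≤ |E p.2| := abs_nonneg _
          have h7 : 0 ≤ |(c.R y : ℤ) - c.R z₀| := abs_nonneg _
          calc 2 * (|(c.R y : ℤ) - c.R z₀| * |E p.2|) = |(c.R y : ℤ) - c.R z₀| * (2 * |E p.2|) := by
                ring
            _ ≤ |(c.R y : ℤ) - c.R z₀| * (3 ^ n) :=
                mul_le_mul_of_nonneg_left (by linarith) h7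
            _ ≤ 3 ^ (n - j) * 3 ^ n := mul_le_mul_of_nonneg_right hR h3n.le
        exact_mod_cast h4
      have h3 := hslow (cf y)
      have h3nr : (0 : ℝ) < 3 ^ n := by positivity
      have h4 : (3 : ℝ) ^ n * (((k (cf y)).natAbs : ℝ) / 2 - 1) ≤ nrm (um c p y) := by
        nlinarith
      unfold chi
      rw [hℓ, hX, ← Real.exp_nat_mul, ← Real.exp_add]
      apply Real.exp_le_exp.mpr
      have hpos : (0 : ℝ) < 3 ^ n * Q := by positivity
      have h5 : (((k (cf y)).natAbs : ℝ) / 2 - 1) / Q ≤ nrm (um c p y) / (3 ^ n * Q) := by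
        rw [div_le_div_iff₀ (by linarith) hpos]
        nlinarith
      have h6 : (((k (cf y)).natAbs : ℝ) / 2 - 1) / Q =
          ((k (cf y)).natAbs : ℝ) * (1 / (2 * (Q : ℝ))) - 1 / Q := by
        field_simp
      have h7 : 1 / (Q : ℝ) ≤ 1 := by
        rw [div_le_one (by linarith)]
        exact hQr
      rw [h6] at h5
      have h8 : ((k (cf y)).natAbs : ℝ) * -(1 / (2 * (Q : ℝ))) =
          -(((k (cf y)).natAbs : ℝ) * (1 / (2 * (Q : ℝ)))) := by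
        ring
      rw [h8]
      linarith
  -- the windows
  have hω : 0 ≤ ω := by
    refine le_trans ?_ (hWin 0 0)
    exact Finset.sum_nonneg fun y _ => mul_nonneg (c.pos y).le (ind_nonneg _)
  have hsum : mj n c.R (wm c κ p) j z₀ ≤ ω * ∑ x, Bd x := by
    have e1 : mj n c.R (wm c κ p) j z₀ ≤ ∑ y : Ty, ∑ x : Fin (3 ^ n),
        Bd x * (c.a y * ind (c.ctr y = (x : ℕ) ∧ |(c.R y : ℤ) - (c.R z₀ : ℕ)| ≤ 3 ^ (n - j))) := by
      refine Finset.sum_le_sum fun y _ => ?_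
      have e2 : ∀ x ∈ (univ : Finset (Fin (3 ^ n))), 0 ≤ Bd x *
          (c.a y * ind (c.ctr y = (x : ℕ) ∧ |(c.R y : ℤ) - (c.R z₀ : ℕ)| ≤ 3 ^ (n - j))) :=
        fun x _ => mul_nonneg (hBd0 x) (mul_nonneg (c.pos y).le (ind_nonneg _))
      refine le_trans ?_ (Finset.single_le_sum e2 (Finset.mem_univ (cf y)))
      by_cases hR : |(c.R y : ℤ) - c.R z₀| ≤ 3 ^ (n - j)
      · rw [ind_of hR, ind_of ⟨(hcf y).symm, hR⟩, mul_one, mul_one]
        unfold wm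
        rw [mul_comm]
        exact mul_le_mul_of_nonneg_right (hterm y hR) (c.pos y).le
      · rw [ind_of_not hR, mul_zero]
        exact e2 (cf y) (Finset.mem_univ _)
    refine e1.trans ?_
    rw [Finset.sum_comm, Finset.mul_sum]
    refine Finset.sum_le_sum fun x _ => ?_
    rw [← Finset.mul_sum, mul_comm ω]
    exact mul_le_mul_of_nonneg_left (hWin x (c.R z₀)) (hBd0 x)
  have h1 : ∑ y, (if (k y).natAbs ≤ q then (1 : ℝ) else 0) ≤ 2 * q + 1 := by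
    have e : ∑ y, (if (k y).natAbs ≤ q then (1 : ℝ) else 0) =
        ∑ z ∈ univ.image k, (if z.natAbs ≤ q then (1 : ℝ) else 0) := by
      rw [Finset.sum_image fun a _ b _ h => hkinj h]
    rw [e, Finset.sum_boole]
    exact Pool.Agent.GA.UPP_card _ q
  have h2 : ∑ y, X ^ (k y).natAbs ≤ 2 * (1 / (1 - X)) := by
    have e : ∑ y, X ^ (k y).natAbs = ∑ z ∈ univ.image k, X ^ z.natAbs := by
      rw [Finset.sum_image fun a _ b _ h => hkinj h]
    rw [e]
    exact Pool.Agent.GA.UPP_geo X hX0 hX1 _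
  have he : Real.exp 1 ≤ 3 := by
    have := Real.exp_one_lt_d9
    linarith
  have h3 : Real.exp 1 * ∑ y, X ^ (k y).natAbs ≤ 3 * (2 * (1 + 2 * (Q : ℝ))) := by
    have h4 : 0 ≤ ∑ y, X ^ (k y).natAbs := Finset.sum_nonneg fun y _ => pow_nonneg hX0 _
    calc Real.exp 1 * ∑ y, X ^ (k y).natAbs ≤ 3 * ∑ y, X ^ (k y).natAbs :=
          mul_le_mul_of_nonneg_right he h4
      _ ≤ 3 * (2 * (1 + 2 * (Q : ℝ))) := by linarith
  have hB : ∑ x, Bd x ≤ 40 * q := by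
    have e : ∑ x, Bd x = ∑ y, (if (k y).natAbs ≤ q then (1 : ℝ) else 0) +
        Real.exp 1 * ∑ y, X ^ (k y).natAbs := by
      rw [Finset.mul_sum, ← Finset.sum_add_distrib]
      exact Finset.sum_congr rfl fun x _ => hBd x
    rw [e]
    linarith
  have hfin : (40 : ℝ) * (ω * 3 ^ (n - j)) = ω * (40 * q) := by
    rw [hq]
    push_cast
    ring
  rw [hfin]
  exact hsum.trans (mul_le_mul_of_nonneg_left hB hω)

end

end Pool.Agent.ZR
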